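import Mathlib
import Pool.Agent.H6.Dpp

set_option autoImplicit false

namespace Pool.Agent.Results.MP_a5c736_co.All

open Pool.Agent.H6.Dpp

/-- `G` on `n` vertices satisfies `α_t ≥ t n / χ_DP` for all `t ∈ [χ_DP]`. -/
def Nice {n : ℕ} (G : SimpleGraph (Fin n)) : Prop :=
  ∀ t : ℕ, 1 ≤ t → t ≤ chiDP G → (t * n : ℝ) / chiDP G ≤ alphaDP G t

def Gt (t : ℕ) : SimpleGraph (Fin (2 * t + 1)) := SimpleGraph.fromRel fun u v =>
  (u.1 < t ∧ v.1 < 2 * t) ∨ (t ≤ u.1 ∧ u.1 < 2 * t ∧ v.1 = 2 * t)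

lemma adj_iff {t : ℕ} (u v : Fin (2 * t + 1)) : (Gt t).Adj u v ↔ u.1 ≠ v.1 ∧
    (((u.1 < t ∧ v.1 < 2 * t) ∨ (t ≤ u.1 ∧ u.1 < 2 * t ∧ v.1 = 2 * t)) ∨
      ((v.1 < t ∧ u.1 < 2 * t) ∨ (t ≤ v.1 ∧ v.1 < 2 * t ∧ u.1 = 2 * t))) := by
  rw [Gt, SimpleGraph.fromRel_adj, Ne, Ne, Fin.val_inj]

lemma chi (t : ℕ) (ht : 1 ≤ t) : chiDP (Gt t) = t + 1 := by
  refine chiDP_eq (fun v => v.1) Fin.val_injective (by omega) (fun v => ?_)
    (Fin.castLE (by omega)) fun i j ne => ?_
  · have := Set.ncard_le_ncard_of_injOn (s := {u | (Gt t).Adj u v ∧ u.1 < v.1})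
      (t := (Finset.range t : Set ℕ)) (fun u => if u.1 < t then u.1 else u.1 - t)
      (fun u hu => by
        obtain ⟨h1, h2⟩ := hu
        rw [adj_iff] at h1
        simp only [Finset.coe_range, Set.mem_Iio]
        split_ifs <;> omega)
      (fun u hu w hw e => by
        obtain ⟨h1, h2⟩ := hu
        obtain ⟨h3, h4⟩ := hw
        rw [adj_iff] at h1 h3
        apply Fin.ext
        simp only at e
        split_ifs at e <;> omega) (Set.toFinite _)
    rw [Set.ncard_coe_finset, Finset.card_range] at this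
    omega
  · rw [adj_iff]
    have := i.2
    have := j.2
    have : i.1 ≠ j.1 := fun e => ne (Fin.ext e)
    simp only [Fin.val_castLE]
    omega

def sh (t : ℕ) [NeZero t] (u v : Fin (2 * t + 1)) : Fin t :=
  if v.1 = 2 * t then Fin.ofNat t (u.1 - t) else 0

lemma nocol (t : ℕ) [NeZero t] (ht : 2 ≤ t) (w : Fin (2 * t + 1)) (f : Fin (2 * t + 1) → Fin t)
    (hf : ∀ u v, u ≠ w → v ≠ w → (Gt t).Adj u v → f u + sh t u v ≠ f v + sh t v u) : False := by
  have hf0 : ∀ u v : Fin (2 * t + 1), u.1 ≠ w.1 → v.1 ≠ w.1 → u.1 ≠ v.1 → u.1 < t → v.1 < 2 * t →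
      f u ≠ f v := by
    intro u v h1 h2 h3 h4 h5 e
    refine hf u v (fun q => h1 (by rw [q])) (fun q => h2 (by rw [q]))
      ((adj_iff u v).2 ⟨h3, Or.inl (Or.inl ⟨h4, h5⟩)⟩) ?_
    rw [sh, sh, if_neg (by omega), if_neg (by omega), e]
  by_cases hw : w.1 < t
  · have same : ∀ b c : Fin (2 * t + 1), t ≤ b.1 → b.1 < 2 * t → t ≤ c.1 → c.1 < 2 * t →
        f b = f c := by
      intro b c b1 b2 c1 c2
      have inj : Function.Injective fun i : Fin t =>
          if i.1 = w.1 then f b else f ⟨i.1, by omega⟩ := by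
        intro i j e
        have := i.2
        have := j.2
        apply Fin.ext
        by_contra ne
        simp only at e
        split_ifs at e with p q q
        · omega
        · exact hf0 ⟨j.1, by omega⟩ b q (by omega) (by simp only; omega) j.2 b2 e.symm
        · exact hf0 ⟨i.1, by omega⟩ b p (by omega) (by simp only; omega) i.2 b2 e
        · exact hf0 ⟨i.1, by omega⟩ ⟨j.1, by omega⟩ p q ne i.2 (by simp only; omega) e
      obtain ⟨i, hi⟩ := Finite.surjective_of_injective inj (f c)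
      have := i.2
      simp only at hi
      split_ifs at hi with p
      · exact hi
      · exact absurd hi (hf0 ⟨i.1, by omega⟩ c p (by omega) (by simp only; omega) i.2 c2)
    obtain ⟨i, hi⟩ : ∃ i : Fin t, f ⟨t, by omega⟩ + i = f ⟨2 * t, by omega⟩ :=
      ⟨f ⟨2 * t, by omega⟩ - f ⟨t, by omega⟩, by abel⟩
    have := i.2
    refine hf ⟨t + i.1, by omega⟩ ⟨2 * t, by omega⟩
      (fun q => by have := congrArg Fin.val q; simp only at this; omega)
      (fun q => by have := congrArg Fin.val q; simp only at this; omega)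
      ((adj_iff _ _).2 ⟨by simp only; omega, Or.inl (Or.inr
        ⟨by simp only; omega, by simp only; omega, rfl⟩)⟩) ?_
    rw [sh, sh, if_pos rfl, if_neg (by simp only; omega), add_zero, ← hi,
      same ⟨t + i.1, by omega⟩ ⟨t, by omega⟩ (by simp) (by simp only; omega) le_rfl
        (by simp only; omega)]
    congr 1
    apply Fin.ext
    simp
  · obtain ⟨b, b1, b2, b3⟩ : ∃ b : Fin (2 * t + 1), t ≤ b.1 ∧ b.1 < 2 * t ∧ b.1 ≠ w.1 := by
      by_cases q : w.1 = t
      · exact ⟨⟨t + 1, by omega⟩, by simp only; omega⟩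
      · exact ⟨⟨t, by omega⟩, by simp only; omega⟩
    have inj : Function.Injective fun i : Fin (t + 1) =>
        if i.1 = t then f b else f ⟨i.1, by omega⟩ := by
      intro i j e
      have := i.2
      have := j.2
      apply Fin.ext
      by_contra ne
      simp only at e
      split_ifs at e with p q q
      · omega
      · exact hf0 ⟨j.1, by omega⟩ b (by simp only; omega) b3 (by simp only; omega)
          (by simp only; omega) b2 e.symm
      · exact hf0 ⟨i.1, by omega⟩ b (by simp only; omega) b3 (by simp only; omega)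
          (by simp only; omega) b2 e
      · exact hf0 ⟨i.1, by omega⟩ ⟨j.1, by omega⟩ (by simp only; omega) (by simp only; omega) ne
          (by simp only; omega) (by simp only; omega) e
    have := Fintype.card_le_of_injective _ inj
    simp at this

lemma alpha (t : ℕ) (ht : 2 ≤ t) : alphaDP (Gt t) t ≤ 2 * t - 1 := by
  have : NeZero t := ⟨by omega⟩
  have hc := tw_cover (Gt t) t (sh t)
  refine alphaDP_le hc fun s hs => ?_
  by_contra hl
  have c1 := Finset.card_image_of_injOn (fst_inj hc hs)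
  have c2 := Finset.card_compl (s.image Prod.fst)
  rw [Fintype.card_fin] at c2
  obtain ⟨w, hw⟩ := Finset.card_le_one_iff_subset_singleton.1
    (show (s.image Prod.fst)ᶜ.card ≤ 1 by omega)
  have : ∀ v, ∃ a, v ≠ w → (v, a) ∈ s := by
    intro v
    by_cases q : v = w
    · exact ⟨0, fun h => absurd q h⟩
    · have : v ∈ s.image Prod.fst := by
        by_contra z
        exact q (Finset.mem_singleton.1 (hw (Finset.mem_compl.2 z)))
      obtain ⟨⟨u, a⟩, h, rfl⟩ := Finset.mem_image.1 this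
      exact ⟨a, fun _ => h⟩
  choose f hf using this
  exact nocol t ht w f fun u v hu hv a e =>
    hs (hf u hu) (hf v hv) (fun z => a.ne (Prod.ext_iff.1 z).1) (Or.inr ⟨a, e⟩)

theorem result : ∀ k : ℕ, 4 ≤ k →
    ∃ (n : ℕ) (G : SimpleGraph (Fin n)), 0 < n ∧ chiDP G = k ∧ ¬ Nice G := by
  intro k hk
  obtain ⟨t, rfl⟩ : ∃ t, k = t + 1 := ⟨k - 1, by omega⟩
  refine ⟨2 * t + 1, Gt t, by omega, chi t (by omega), fun h => ?_⟩
  have h1 := h t (by omega) (by rw [chi t (by omega)]; omega)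
  have h2 : alphaDP (Gt t) t + 1 ≤ 2 * t := by have := alpha t (by omega); omega
  have h3 : (alphaDP (Gt t) t : ℝ) + 1 ≤ 2 * t := by exact_mod_cast h2
  rw [chi t (by omega), div_le_iff₀ (by positivity)] at h1
  push_cast at h1
  have : (0 : ℝ) ≤ t := Nat.cast_nonneg t
  nlinarith

end Pool.Agent.Results.MP_a5c736_co.All
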